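import Pool.Agent.Helper8.UN.Stmts

set_option autoImplicit false

open Finset

namespace Pool.Agent.Helper8.UN

/-- `f` is constant on `e` minus `y` -/
def bl3_Cst {n : ℕ} (f : Fin n → ℕ) (y : Fin n) (e : Finset (Fin n)) : Prop :=
  ∀ u ∈ e, ∀ v ∈ e, u ≠ y → v ≠ y → f u = f v

/-- some class is large -/
def bl3_Big {n : ℕ} (W' : Finset (Fin n)) (k s : ℕ) (f : Fin n → ℕ) : Prop :=
  ∃ i ∈ Finset.Icc 1 k, s ≤ (W'.filter (fun v => f v = i)).card

/-- the edges which may block -/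
def bl3_F {n : ℕ} (E : Finset (Finset (Fin n))) (W : Finset (Fin n)) (y : Fin n) (r : ℕ) :
    Finset (Finset (Fin n)) := E.filter (fun e => e ⊆ W ∧ y ∈ e ∧ 3 ≤ e.card ∧ e.card < r)

open scoped Classical in
theorem bl3_pt (n r k : ℕ) (E : Finset (Finset (Fin n))) (W W' : Finset (Fin n))
    (y : Fin n) (hr : 4 ≤ r) (hW : ∀ z ∈ W, z ≠ y → z ∈ W') (f : Fin n → ℕ) :
    bl3 E W k f y ≤ ((bl3_F E W y r).filter (fun e => bl3_Cst f y e)).card +
      (if bl3_Big W' k (r - 1) f then n else 0) := by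
  classical
  by_cases hb : bl3_Big W' k (r - 1) f
  · rw [if_pos hb]
    refine le_trans ?_ (Nat.le_add_left _ _)
    unfold bl3
    have hsub : (Finset.Icc 1 k).filter (fun i => ∃ e ∈ E, e ⊆ W ∧ y ∈ e ∧ 3 ≤ e.card ∧
        ∀ u ∈ e, u ≠ y → f u = i) ⊆ Finset.univ.image f := by
      intro i hi
      obtain ⟨e, _, _, _, hc, hfe⟩ := (Finset.mem_filter.1 hi).2
      obtain ⟨u, hu, huy⟩ := Finset.exists_mem_ne (by omega : 1 < e.card) y
      exact Finset.mem_image.2 ⟨u, Finset.mem_univ _, hfe u hu huy⟩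
    refine le_trans (Finset.card_le_card hsub) (le_trans Finset.card_image_le ?_)
    rw [Finset.card_univ, Fintype.card_fin]
  · rw [if_neg hb, add_zero]
    unfold bl3
    have hex : ∀ i : ℕ, i ∈ (Finset.Icc 1 k).filter (fun i => ∃ e ∈ E, e ⊆ W ∧ y ∈ e ∧
        3 ≤ e.card ∧ ∀ u ∈ e, u ≠ y → f u = i) →
        ∃ e ∈ bl3_F E W y r, ∀ u ∈ e, u ≠ y → f u = i := by
      intro i hi
      have hi' := Finset.mem_filter.1 hi
      obtain ⟨e, he, heW, hye, hc, hfe⟩ := hi'.2
      refine ⟨e, ?_, hfe⟩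
      unfold bl3_F
      refine Finset.mem_filter.2 ⟨he, heW, hye, hc, ?_⟩
      by_contra hcon
      apply hb
      refine ⟨i, hi'.1, ?_⟩
      have hsub : e.erase y ⊆ W'.filter (fun v => f v = i) := by
        intro u hu
        have hu' := Finset.mem_erase.1 hu
        exact Finset.mem_filter.2 ⟨hW u (heW hu'.2) hu'.1, hfe u hu'.2 hu'.1⟩
      have h1 := Finset.card_le_card hsub
      rw [Finset.card_erase_of_mem hye] at h1
      omega
    choose! g hgF hg using hex
    refine Finset.card_le_card_of_injOn g ?_ ?_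
    · intro i hi
      refine Finset.mem_filter.2 ⟨hgF i hi, ?_⟩
      intro u hu v hv huy hvy
      rw [hg i hi u hu huy, hg i hi v hv hvy]
    · intro i hi j hj hij
      have hF := hgF i hi
      unfold bl3_F at hF
      have hc := (Finset.mem_filter.1 hF).2.2.2.1
      obtain ⟨u, hu, huy⟩ := Finset.exists_mem_ne (by omega : 1 < (g i).card) y
      have h1 := hg i hi u hu huy
      have h2 := hg j hj u (hij ▸ hu) huy
      rw [← h1, ← h2]

open scoped Classical in
theorem bl3_gen (n D0 D r k : ℕ) (E : Finset (Finset (Fin n))) (W W' : Finset (Fin n))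
    (y : Fin n) (hDk : D < k) (hr : 4 ≤ r) (hdeg : Deg E D0 r)
    (hW : ∀ z ∈ W, z ≠ y → z ∈ W') (M : Finset (Fin n → ℕ)) (T : ℕ)
    (h1 : ∀ z ∈ W', ∀ z' ∈ W', z ≠ z' →
      (k - D) * (M.filter (fun f => f z = f z')).card ≤ T)
    (h2 : (k - D) ^ (r - 1 - 1) * (M.filter (fun f => ∃ i ∈ Finset.Icc 1 k,
      r - 1 ≤ (W'.filter (fun v => f v = i)).card)).card ≤ n.choose (r - 1) * T) :
    ∑ f ∈ M, (bl3 E W k f y : ℝ) ≤ T *
      (D0 / ((k : ℝ) - D) + n * n.choose (r - 1) / ((k : ℝ) - D) ^ (r - 2)) := by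
  classical
  have hkD : (0 : ℝ) < (k : ℝ) - D := by
    have : (D : ℝ) < k := by exact_mod_cast hDk
    linarith
  have hcast : ((k - D : ℕ) : ℝ) = (k : ℝ) - D := by
    rw [Nat.cast_sub hDk.le]
  have hsum : ∑ f ∈ M, bl3 E W k f y ≤
      ∑ e ∈ bl3_F E W y r, (M.filter (fun f => bl3_Cst f y e)).card +
        n * (M.filter (fun f => bl3_Big W' k (r - 1) f)).card := by
    calc ∑ f ∈ M, bl3 E W k f y ≤ ∑ f ∈ M,
        (((bl3_F E W y r).filter (fun e => bl3_Cst f y e)).card +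
          (if bl3_Big W' k (r - 1) f then n else 0)) :=
          Finset.sum_le_sum (fun f _ => bl3_pt n r k E W W' y hr hW f)
      _ = _ := by
        rw [Finset.sum_add_distrib]
        congr 1
        · simp only [Finset.card_filter]
          rw [Finset.sum_comm]
        · rw [← Finset.sum_filter, Finset.sum_const, smul_eq_mul, mul_comm]
  have hF : ∀ e ∈ bl3_F E W y r, ((M.filter (fun f => bl3_Cst f y e)).card : ℝ) ≤
      T / ((k : ℝ) - D) := by
    intro e he
    unfold bl3_F at he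
    obtain ⟨_, heW, hye, hc3, _⟩ := Finset.mem_filter.1 he
    have hcard : 1 < (e.erase y).card := by
      rw [Finset.card_erase_of_mem hye]
      omega
    obtain ⟨z, hz, z', hz', hzz⟩ := Finset.one_lt_card.1 hcard
    have hz1 := Finset.mem_erase.1 hz
    have hz1' := Finset.mem_erase.1 hz'
    have h3 := h1 z (hW z (heW hz1.2) hz1.1) z' (hW z' (heW hz1'.2) hz1'.1) hzz
    have h4 : (M.filter (fun f => bl3_Cst f y e)).card ≤
        (M.filter (fun f => f z = f z')).card := by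
      refine Finset.card_le_card ?_
      intro f hf
      have hf' := Finset.mem_filter.1 hf
      exact Finset.mem_filter.2 ⟨hf'.1, hf'.2 z hz1.2 z' hz1'.2 hz1.1 hz1'.1⟩
    rw [le_div_iff₀ hkD]
    have h5 : (k - D) * (M.filter (fun f => bl3_Cst f y e)).card ≤ T :=
      le_trans (Nat.mul_le_mul_left _ h4) h3
    have h6 : (((k - D) * (M.filter (fun f => bl3_Cst f y e)).card : ℕ) : ℝ) ≤ T := by
      exact_mod_cast h5
    rw [Nat.cast_mul, hcast] at h6
    linarith
  have hFc : ((bl3_F E W y r).card : ℝ) ≤ D0 := by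
    have h3 : (bl3_F E W y r).card ≤ (E.filter (fun e => y ∈ e ∧ e.card < r)).card := by
      refine Finset.card_le_card ?_
      intro e he
      unfold bl3_F at he
      obtain ⟨he1, _, hye, _, hcr⟩ := Finset.mem_filter.1 he
      exact Finset.mem_filter.2 ⟨he1, hye, hcr⟩
    exact_mod_cast le_trans h3 (hdeg y)
  have hT0 : (0 : ℝ) ≤ T := Nat.cast_nonneg _
  have hA : (∑ e ∈ bl3_F E W y r, ((M.filter (fun f => bl3_Cst f y e)).card : ℝ)) ≤
      D0 * (T / ((k : ℝ) - D)) := by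
    calc (∑ e ∈ bl3_F E W y r, ((M.filter (fun f => bl3_Cst f y e)).card : ℝ)) ≤
        ∑ _e ∈ bl3_F E W y r, T / ((k : ℝ) - D) := Finset.sum_le_sum hF
      _ = (bl3_F E W y r).card * (T / ((k : ℝ) - D)) := by
        rw [Finset.sum_const, nsmul_eq_mul]
      _ ≤ D0 * (T / ((k : ℝ) - D)) :=
        mul_le_mul_of_nonneg_right hFc (div_nonneg hT0 hkD.le)
  have hB : ((M.filter (fun f => bl3_Big W' k (r - 1) f)).card : ℝ) ≤
      n.choose (r - 1) * T / ((k : ℝ) - D) ^ (r - 2) := by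
    rw [le_div_iff₀ (pow_pos hkD _)]
    have h3 : (((k - D) ^ (r - 1 - 1) * (M.filter (fun f => bl3_Big W' k (r - 1) f)).card : ℕ) : ℝ)
        ≤ ((n.choose (r - 1) * T : ℕ) : ℝ) := by
      exact_mod_cast h2
    rw [Nat.cast_mul, Nat.cast_mul, Nat.cast_pow, hcast] at h3
    have h4 : r - 1 - 1 = r - 2 := by omega
    rw [h4] at h3
    linarith
  have hn0 : (0 : ℝ) ≤ n := Nat.cast_nonneg _
  calc ∑ f ∈ M, (bl3 E W k f y : ℝ) = ((∑ f ∈ M, bl3 E W k f y : ℕ) : ℝ) := by
        rw [Nat.cast_sum]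
    _ ≤ ((∑ e ∈ bl3_F E W y r, (M.filter (fun f => bl3_Cst f y e)).card +
        n * (M.filter (fun f => bl3_Big W' k (r - 1) f)).card : ℕ) : ℝ) := by
        exact_mod_cast hsum
    _ = (∑ e ∈ bl3_F E W y r, ((M.filter (fun f => bl3_Cst f y e)).card : ℝ)) +
        n * ((M.filter (fun f => bl3_Big W' k (r - 1) f)).card : ℝ) := by
        push_cast
        ring
    _ ≤ D0 * (T / ((k : ℝ) - D)) + n * (n.choose (r - 1) * T / ((k : ℝ) - D) ^ (r - 2)) := by
        exact add_le_add hA (mul_le_mul_of_nonneg_left hB hn0)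
    _ = T * (D0 / ((k : ℝ) - D) + n * n.choose (r - 1) / ((k : ℝ) - D) ^ (r - 2)) := by
        ring

theorem st_BL3 (h1 : ST_MON) (h2 : ST_BGC) : ST_BL3 := by
  classical
  intro n D0 D r k E W W' y hT hBD hDk hr hdeg hy hW'
  have hW : ∀ z ∈ W, z ≠ y → z ∈ W' := by
    intro z hz hzy
    rcases hW' with h | h
    · rw [h]
      exact hz
    · rw [h]
      exact Finset.mem_erase.2 ⟨hzy, hz⟩
  have h3 := h2 n D k (r - 1) E W' hT hBD (by omega)
  constructor
  · exact bl3_gen n D0 D r k E W W' y hDk hr hdeg hW _ _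
      (fun z hz z' hz' hzz => (h1 n D k E W' z z' hT hBD hz hz' hzz).1) h3.1
  · exact bl3_gen n D0 D r k E W W' y hDk hr hdeg hW _ _
      (fun z hz z' hz' hzz => (h1 n D k E W' z z' hT hBD hz hz' hzz).2) h3.2

end Pool.Agent.Helper8.UN
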